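import Pool.Agent.K7.H66.TD.Base

/-!
# Job W of project TD: from one long balanced segment to a power saving for the amplitudes
-/

set_option autoImplicit false

namespace Pool.Agent.K7.H72.TD

open Finset Pool.Agent.K7.H66.TD

theorem seven_rpow : (7 : ℝ) ^ (0.34 : ℝ) ≤ 1.941 := by
  have h1 : ((7 : ℝ) ^ (0.34 : ℝ)) ^ (50 : ℕ) = 7 ^ (17 : ℕ) := by
    rw [← Real.rpow_natCast, ← Real.rpow_mul (by norm_num)]
    norm_num
  have h2 : ((7 : ℝ) ^ (0.34 : ℝ)) ^ (50 : ℕ) ≤ (1.941 : ℝ) ^ (50 : ℕ) := by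
    rw [h1]; norm_num
  exact le_of_pow_le_pow_left₀ (by norm_num) (by norm_num) h2

/-- a single binomial coefficient far from the middle -/
theorem choose_tail (htail : StTail) (k j : ℕ) (l : ℝ) (hl : 0 ≤ l) (hj : j ≤ k) (h : l ≤ |2 * (j : ℝ) - k|) :
    (k.choose j : ℝ) ≤ 2 * 2 ^ k * Real.exp (-l ^ 2 / (2 * k)) := by
  refine le_trans ?_ (htail k l hl)
  refine Finset.single_le_sum (f := fun j : ℕ => (k.choose j : ℝ)) (fun i _ => by positivity) ?_
  rw [Finset.mem_filter, Finset.mem_range]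
  exact ⟨by omega, h⟩

/-- The new frequency: order drops by `i`. -/
theorem hasOrd_step {n q i s : ℕ} {a : ZMod (3 ^ n)} (h : HasOrd n q a) (hi : i ≤ q) :
    HasOrd n (q - i) (3 ^ i * a * h2 n ^ s) := by
  obtain ⟨hq, u, hu⟩ := h
  refine ⟨by omega, ?_⟩
  have hun : IsUnit (h2 n ^ s) := by
    apply IsUnit.pow
    exact IsUnit.of_mul_eq_one 2 (by rw [mul_comm]; exact h2_mul n)
  obtain ⟨v, hv⟩ := hun
  refine ⟨u * v, ?_⟩
  rw [hu, ← hv]
  have : n - (q - i) = i + (n - q) := by omega
  rw [this, pow_add]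
  push_cast
  ring

/-- Vandermonde over the reals -/
theorem vandermonde (s t j : ℕ) :
    ∑ p ∈ antidiagonal j, (s.choose p.1 : ℝ) * ((t.choose p.2 : ℕ) : ℝ) = ((s + t).choose j : ℕ) := by
  rw [Nat.add_choose_eq]
  push_cast
  rfl

theorem choose_le_two_pow (t j : ℕ) : ((t.choose j : ℕ) : ℝ) ≤ 2 ^ t := by
  exact_mod_cast Nat.choose_le_two_pow t j

theorem sum_choose_le (s j : ℕ) : ∑ p ∈ antidiagonal j, (s.choose p.1 : ℝ) ≤ 2 ^ s := by
  rw [Finset.Nat.sum_antidiagonal_eq_sum_range_succ (fun i _ => (s.choose i : ℝ))]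
  have h1 : ∑ i ∈ range (s + 1), (s.choose i : ℝ) = 2 ^ s := by
    exact_mod_cast Nat.sum_range_choose s
  have h2 : ∑ i ∈ range (j + 1), (s.choose i : ℝ) ≤ ∑ i ∈ range (s + 1), (s.choose i : ℝ) := by
    rw [← Finset.sum_filter_add_sum_filter_not (range (j + 1)) (fun i => i ≤ s)]
    have : ∑ i ∈ (range (j + 1)).filter (fun i => ¬ i ≤ s), (s.choose i : ℝ) = 0 := by
      apply Finset.sum_eq_zero
      intro i hi
      rw [Finset.mem_filter] at hi
      rw [Nat.choose_eq_zero_of_lt (by omega)]; simp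
    rw [this, add_zero]
    apply Finset.sum_le_sum_of_subset_of_nonneg
    · intro i hi
      rw [Finset.mem_filter] at hi
      rw [Finset.mem_range]; omega
    · intro i _ _; positivity
  linarith

/-- the bad part of the sum -/
theorem sum_bad_le (htail : StTail) (s j : ℕ) (hs : 0 < s) :
    ∑ p ∈ (antidiagonal j).filter (fun p : ℕ × ℕ => ¬ |2 * (p.1 : ℝ) - s| ≤ s / 50), (s.choose p.1 : ℝ)
      ≤ 2 * 2 ^ s * Real.exp (-(s : ℝ) / 5000) := by
  have h1 := htail s (s / 50) (by positivity)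
  have h2 : -((s : ℝ) / 50) ^ 2 / (2 * s) = -(s : ℝ) / 5000 := by
    field_simp; ring
  rw [h2] at h1
  refine le_trans ?_ h1
  have h3 : ∑ p ∈ (antidiagonal j).filter (fun p : ℕ × ℕ => ¬ |2 * (p.1 : ℝ) - s| ≤ s / 50), (s.choose p.1 : ℝ)
      = ∑ i ∈ (range (j + 1)).filter (fun i : ℕ => ¬ |2 * (i : ℝ) - s| ≤ s / 50), (s.choose i : ℝ) := by
    rw [Finset.sum_filter, Finset.sum_filter,
      Finset.Nat.sum_antidiagonal_eq_sum_range_succ (fun i _ => if ¬ |2 * (i : ℝ) - s| ≤ s / 50 then (s.choose i : ℝ) else 0)]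
  rw [h3, ← Finset.sum_filter_add_sum_filter_not _ (fun i => i ≤ s)]
  have : ∑ i ∈ ((range (j + 1)).filter (fun i : ℕ => ¬ |2 * (i : ℝ) - s| ≤ s / 50)).filter (fun i => ¬ i ≤ s), (s.choose i : ℝ) = 0 := by
    apply Finset.sum_eq_zero
    intro i hi
    rw [Finset.mem_filter] at hi
    rw [Nat.choose_eq_zero_of_lt (by omega)]; simp
  rw [this, add_zero]
  apply Finset.sum_le_sum_of_subset_of_nonneg
  · intro i hi
    rw [Finset.mem_filter, Finset.mem_filter] at hi
    rw [Finset.mem_filter, Finset.mem_range]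
    refine ⟨by omega, ?_⟩
    have := hi.1.2
    push Not at this
    exact this.le
  · intro i _ _; positivity

theorem stW (hseg : StSeg) (htail : StTail) : StW := by
  obtain ⟨q0, hq0⟩ := hseg
  refine ⟨(q0 : ℝ) + 100, by positivity, ?_⟩
  intro T0 hT0 m hm n q
  have hT : (100 : ℝ) ≤ T0 := by
    have : (0 : ℝ) ≤ q0 := by positivity
    linarith
  have hTq : (q0 : ℝ) ≤ T0 := by linarith
  have hE : 0 < Real.exp (-T0 / 500) := Real.exp_pos _
  induction q using Nat.strong_induction_on with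
  | _ q ih =>
    intro t j a hord hq1 hqj
    have hqr : (1 : ℝ) ≤ q := by exact_mod_cast hq1
    have hqpos : (0 : ℝ) < q := by linarith
    have hgnn : 0 ≤ (7 * T0 / q) ^ (0.34 : ℝ) := by positivity
    have hchnn : (0 : ℝ) ≤ (t.choose j : ℝ) := by positivity
    by_cases hsmall : (q : ℝ) ≤ 7 * T0
    · have h1 : (1 : ℝ) ≤ (7 * T0 / q) ^ (0.34 : ℝ) := by
        apply Real.one_le_rpow _ (by norm_num)
        rw [le_div_iff₀ hqpos]; linarith
      have h2 := norm_Amp_le n t j a
      have h3 : (t.choose j : ℝ) ≤ (7 * T0 / q) ^ (0.34 : ℝ) * (t.choose j : ℝ) := by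
        nlinarith
      have h4 : 0 ≤ (2 : ℝ) ^ t * (5 * Real.exp (-T0 / 500)) := by positivity
      linarith
    · push Not at hsmall
      -- facts
      have hmq : (420 : ℝ) * m ≤ q := by
        have : 7 * (60 * (m : ℝ)) ≤ 7 * T0 := by linarith
        linarith
      have hjr : (q : ℝ) - m ≤ j := by
        have : (q : ℝ) ≤ j + m := by exact_mod_cast hqj
        linarith
      have hj1 : (419 / 420 : ℝ) * q ≤ j := by linarith
      by_cases htj : t < j
      · rw [Amp_big a htj]
        simp only [norm_zero]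
        positivity
      push Not at htj
      have htjr : (j : ℝ) ≤ t := by exact_mod_cast htj
      by_cases hts : t < 5 * q / 3
      · -- far from the middle
        have hts' : 3 * (t : ℝ) ≤ 5 * q := by
          have : 3 * t ≤ 5 * q := by omega
          exact_mod_cast this
        have htpos : (0 : ℝ) < t := by nlinarith
        have hl : 0.196 * (t : ℝ) ≤ |2 * (j : ℝ) - t| := by
          refine le_trans ?_ (le_abs_self _)
          nlinarith
        have h1 := choose_tail htail t j (0.196 * t) (by positivity) htj hl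
        have h2 := norm_Amp_le n t j a
        have h3 : Real.exp (-(0.196 * (t : ℝ)) ^ 2 / (2 * t)) ≤ Real.exp (-T0 / 500) := by
          apply Real.exp_le_exp.2
          have e1 : -(0.196 * (t : ℝ)) ^ 2 / (2 * t) = -(0.196 ^ 2 / 2) * t := by
            field_simp
          rw [e1]
          nlinarith
        have h4 : 2 * 2 ^ t * Real.exp (-(0.196 * (t : ℝ)) ^ 2 / (2 * t)) ≤ 2 ^ t * (5 * Real.exp (-T0 / 500)) := by
          have hp : (0 : ℝ) < 2 ^ t := by positivity
          calc 2 * 2 ^ t * Real.exp (-(0.196 * (t : ℝ)) ^ 2 / (2 * t)) ≤ 2 * 2 ^ t * Real.exp (-T0 / 500) :=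
                mul_le_mul_of_nonneg_left h3 (by positivity)
            _ ≤ 2 ^ t * (5 * Real.exp (-T0 / 500)) := by nlinarith [mul_pos hp hE]
        have h5 : 0 ≤ (7 * T0 / q) ^ (0.34 : ℝ) * (t.choose j : ℝ) := by positivity
        linarith
      · push Not at hts
        -- split off the last segment
        obtain ⟨t', rfl⟩ : ∃ t', t = t' + 5 * q / 3 := ⟨t - 5 * q / 3, by omega⟩
        set s : ℕ := 5 * q / 3 with hs
        have hs3 : 3 * s ≤ 5 * q := by omega
        have hs3' : 5 * q ≤ 3 * s + 2 := by omega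
        have hsr : 3 * (s : ℝ) ≤ 5 * q := by exact_mod_cast hs3
        have hsr' : 5 * (q : ℝ) ≤ 3 * s + 2 := by exact_mod_cast hs3'
        have hspos : (0 : ℝ) < s := by nlinarith
        have hsposn : 0 < s := by exact_mod_cast hspos
        have hqq0 : q0 ≤ q := by
          have : (q0 : ℝ) ≤ q := by linarith
          exact_mod_cast this
        set g : ℝ := (7 * T0 / q) ^ (0.34 : ℝ) with hg
        set E : ℝ := 5 * Real.exp (-T0 / 500) with hEdef
        have hEpos : 0 < E := by positivity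
        rw [Amp_add]
        refine (norm_sum_le _ _).trans ?_
        rw [← Finset.sum_filter_add_sum_filter_not (antidiagonal j) (fun p : ℕ × ℕ => |2 * (p.1 : ℝ) - s| ≤ s / 50)]
        have hgood : ∑ p ∈ (antidiagonal j).filter (fun p : ℕ × ℕ => |2 * (p.1 : ℝ) - s| ≤ s / 50),
            ‖Amp n s p.1 a * Amp n t' p.2 (3 ^ p.1 * a * h2 n ^ s)‖
            ≤ ∑ p ∈ (antidiagonal j).filter (fun p : ℕ × ℕ => |2 * (p.1 : ℝ) - s| ≤ s / 50),
              (0.99 * g * ((s.choose p.1 : ℝ) * (t'.choose p.2 : ℝ)) + 0.51 * 2 ^ t' * E * (s.choose p.1 : ℝ)) := by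
          apply Finset.sum_le_sum
          intro p hp
          rw [Finset.mem_filter, Finset.HasAntidiagonal.mem_antidiagonal] at hp
          obtain ⟨hpj, hpb⟩ := hp
          rw [norm_mul]
          have a1 := hq0 n q s p.1 a hord hqq0 hs hpb
          rw [abs_le] at hpb
          obtain ⟨hb1, hb2⟩ := hpb
          have hp1 : (0 : ℝ) < p.1 := by nlinarith
          have hp1n : 0 < p.1 := by exact_mod_cast hp1
          have hp2 : (p.1 : ℝ) ≤ 6 / 7 * q := by nlinarith
          have hpq : p.1 < q := by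
            have : (p.1 : ℝ) < q := by linarith
            exact_mod_cast this
          have a2 := ih (q - p.1) (by omega) t' p.2 (3 ^ p.1 * a * h2 n ^ s) (hasOrd_step hord hpq.le) (by omega) (by omega)
          have hqp : ((q - p.1 : ℕ) : ℝ) = q - p.1 := by
            rw [Nat.cast_sub hpq.le]
          have hqp7 : (q : ℝ) / 7 ≤ ((q - p.1 : ℕ) : ℝ) := by rw [hqp]; linarith
          have hqp0 : (0 : ℝ) < ((q - p.1 : ℕ) : ℝ) := by linarith
          have a3 : (7 * T0 / ((q - p.1 : ℕ) : ℝ)) ^ (0.34 : ℝ) ≤ 1.941 * g := by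
            have b1 : 7 * T0 / ((q - p.1 : ℕ) : ℝ) ≤ 7 * (7 * T0 / q) := by
              rw [div_le_iff₀ hqp0]
              have : 7 * T0 = 7 * (7 * T0 / q) * (q / 7) := by field_simp
              calc 7 * T0 = 7 * (7 * T0 / q) * (q / 7) := this
                _ ≤ 7 * (7 * T0 / q) * ((q - p.1 : ℕ) : ℝ) := by
                    apply mul_le_mul_of_nonneg_left hqp7
                    positivity
            calc (7 * T0 / ((q - p.1 : ℕ) : ℝ)) ^ (0.34 : ℝ) ≤ (7 * (7 * T0 / q)) ^ (0.34 : ℝ) :=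
                  Real.rpow_le_rpow (by positivity) b1 (by norm_num)
              _ = 7 ^ (0.34 : ℝ) * g := by
                  rw [Real.mul_rpow (by norm_num) (by positivity)]
              _ ≤ 1.941 * g := mul_le_mul_of_nonneg_right seven_rpow hgnn
          have hc1 : (0 : ℝ) ≤ (s.choose p.1 : ℝ) := by positivity
          have hc2 : (0 : ℝ) ≤ (t'.choose p.2 : ℝ) := by positivity
          have a4 : ‖Amp n t' p.2 (3 ^ p.1 * a * h2 n ^ s)‖ ≤ 1.941 * g * (t'.choose p.2 : ℝ) + 2 ^ t' * E := by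
            refine a2.trans ?_
            have := mul_le_mul_of_nonneg_right a3 hc2
            linarith
          calc ‖Amp n s p.1 a‖ * ‖Amp n t' p.2 (3 ^ p.1 * a * h2 n ^ s)‖
              ≤ (0.51 * (s.choose p.1 : ℝ)) * (1.941 * g * (t'.choose p.2 : ℝ) + 2 ^ t' * E) :=
                mul_le_mul a1 a4 (norm_nonneg _) (by positivity)
            _ ≤ 0.99 * g * ((s.choose p.1 : ℝ) * (t'.choose p.2 : ℝ)) + 0.51 * 2 ^ t' * E * (s.choose p.1 : ℝ) := by
                have hgc : 0 ≤ g * ((s.choose p.1 : ℝ) * (t'.choose p.2 : ℝ)) := by positivity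
                nlinarith
        have hbad : ∑ p ∈ (antidiagonal j).filter (fun p : ℕ × ℕ => ¬ |2 * (p.1 : ℝ) - s| ≤ s / 50),
            ‖Amp n s p.1 a * Amp n t' p.2 (3 ^ p.1 * a * h2 n ^ s)‖
            ≤ 2 ^ t' * (2 * 2 ^ s * Real.exp (-(s : ℝ) / 5000)) := by
          refine le_trans ?_ (mul_le_mul_of_nonneg_left (sum_bad_le htail s j hsposn) (by positivity))
          rw [Finset.mul_sum]
          apply Finset.sum_le_sum
          intro p _
          rw [norm_mul, mul_comm]
          apply mul_le_mul _ (norm_Amp_le n s p.1 a) (norm_nonneg _) (by positivity)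
          exact (norm_Amp_le _ _ _ _).trans (choose_le_two_pow _ _)
        have hgood2 : ∑ p ∈ (antidiagonal j).filter (fun p : ℕ × ℕ => |2 * (p.1 : ℝ) - s| ≤ s / 50),
              (0.99 * g * ((s.choose p.1 : ℝ) * (t'.choose p.2 : ℝ)) + 0.51 * 2 ^ t' * E * (s.choose p.1 : ℝ))
            ≤ 0.99 * g * ((t' + s).choose j : ℝ) + 0.51 * 2 ^ t' * E * 2 ^ s := by
          refine le_trans (Finset.sum_le_sum_of_subset_of_nonneg (Finset.filter_subset _ _) ?_) ?_
          · intro p _ _
            have hc1 : (0 : ℝ) ≤ (s.choose p.1 : ℝ) := by positivity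
            have hc2 : (0 : ℝ) ≤ (t'.choose p.2 : ℝ) := by positivity
            positivity
          · rw [Finset.sum_add_distrib, ← Finset.mul_sum, ← Finset.mul_sum, vandermonde, add_comm s t']
            have := mul_le_mul_of_nonneg_left (sum_choose_le s j) (show 0 ≤ 0.51 * 2 ^ t' * E by positivity)
            linarith
        have hexp : 2 * Real.exp (-(s : ℝ) / 5000) ≤ 0.49 * E := by
          have : Real.exp (-(s : ℝ) / 5000) ≤ Real.exp (-T0 / 500) := by
            apply Real.exp_le_exp.2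
            nlinarith
          rw [hEdef]
          nlinarith
        have hfin : 2 ^ t' * (2 * 2 ^ s * Real.exp (-(s : ℝ) / 5000)) ≤ 0.49 * (2 ^ (t' + s) * E) := by
          rw [pow_add]
          have h2t : (0 : ℝ) < 2 ^ t' * 2 ^ s := by positivity
          calc 2 ^ t' * (2 * 2 ^ s * Real.exp (-(s : ℝ) / 5000)) = (2 ^ t' * 2 ^ s) * (2 * Real.exp (-(s : ℝ) / 5000)) := by ring
            _ ≤ (2 ^ t' * 2 ^ s) * (0.49 * E) := mul_le_mul_of_nonneg_left hexp h2t.le
            _ = 0.49 * (2 ^ t' * 2 ^ s * E) := by ring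
        have hfin2 : 0.51 * 2 ^ t' * E * 2 ^ s = 0.51 * (2 ^ (t' + s) * E) := by rw [pow_add]; ring
        have hgc : 0 ≤ g * ((t' + s).choose j : ℝ) := by positivity
        nlinarith

end Pool.Agent.K7.H72.TD
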